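import Pool.Agent.Lib.MP_57c4e5_pr.Tight

open DGC Filter Topology MeasureTheory ProbabilityTheory BoundedContinuousFunction

/-- Invariance principle at every temperature: the rescaled chain converges in law, in the space of
continuous paths on `[-1, 1]`, to the centred Gaussian process with variance form
`green / (2 β)`. -/
theorem Pool.Agent.Results.MP_57c4e5_pr.Invariance.result (α β : ℝ) (hα : 2 < α) (hα3 : α < 3)
    (hβ : 0 < β) [MeasurableSpace C(Set.Icc (-1 : ℝ) 1, ℝ)] [BorelSpace C(Set.Icc (-1 : ℝ) 1, ℝ)] :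
    ∃ μ : Measure C(Set.Icc (-1 : ℝ) 1, ℝ), IsProbabilityMeasure μ ∧
      (∀ (k : ℕ) (s : Fin k → Set.Icc (-1 : ℝ) 1) (t : Fin k → ℝ),
        μ.map (fun ω => ∑ i, t i * ω (s i)) =
          gaussianReal 0 (green α (fun i => s i) t / (2 * β)).toNNReal) ∧
      ∀ F : C(Set.Icc (-1 : ℝ) 1, ℝ) →ᵇ ℝ,
        Tendsto (fun n => expect α β n fun ψ => F (path α n ψ)) atTop (𝓝 (∫ ω, F ω ∂μ)) :=
  invariance hα hα3 hβ
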