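import Pool.Agent.Lib.MP_57c4e5_pr.Limit

open DGC Filter Topology

/-- Sharp asymptotics of the variance at the origin at every temperature: it is equivalent to
`c n ^ (α - 2) / (2 β)`, with `c > 0` the Green form of the continuum energy at the origin. -/
theorem Pool.Agent.Results.MP_57c4e5_pr.SharpVariance.result (α : ℝ) (hα : 2 < α) (hα3 : α < 3) :
    0 < green α ![0] ![1] ∧ ∀ β : ℝ, 0 < β →
      Tendsto (fun n : ℕ => var0 α β n / (n : ℝ) ^ (α - 2)) atTop
        (𝓝 (green α ![0] ![1] / (2 * β))) :=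
  ⟨green_pos hα hα3, fun _ hβ => var_tendsto hα hα3 hβ⟩
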